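import Mathlib
import Pool.Agent.Lib.helper3.SRW

open SimpleGraph MeasureTheory ProbabilityTheory Filter Pool.Agent.Lib.helper3
open scoped ENNReal

namespace Pool.Agent.H.MP_d2d64b_pr

section
variable {V : Type} (G : SimpleGraph V)

noncomputable def nb (x : V) (f : V → ℝ≥0∞) : ℝ≥0∞ := ∑' y, (G.neighborSet x).indicator f y

noncomputable def op (f : V → ℝ≥0∞) (x : V) : ℝ≥0∞ := (nb G x 1)⁻¹ * nb G x f

lemma nb_one (x : V) : nb G x 1 = (G.neighborSet x).encard := by
  rw [← ENNReal.tsum_set_one, tsum_subtype _ fun _ => (1 : ℝ≥0∞)]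
  rfl

lemma nb_op (f : V → ℝ≥0∞) (x : V) : nb G x 1 * op G f x ≤ nb G x f := by
  rw [op, ← mul_assoc]
  exact mul_le_of_le_one_left' (ENNReal.mul_inv_le_one _)

variable [Countable V]

local instance ms : MeasurableSpace V := ⊤

lemma op_eq (f : V → ℝ≥0∞) (x : V) : ∫⁻ y, f y ∂uniformOn (G.neighborSet x) = op G f x := by
  rw [uniformOn, ProbabilityTheory.cond, lintegral_smul_measure, ← lintegral_indicator .of_discrete,
    lintegral_count, Measure.count_apply .of_discrete, op, nb_one]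
  rfl

variable (hf : ∀ v, (G.neighborSet v).Finite) (hn : ∀ v, (G.neighborSet v).Nonempty) (x : V)
include hf hn

lemma step (h : V → V → ℝ≥0∞) (t : ℕ) :
    ∫⁻ ω, h (SRW.walk x ω t) (SRW.walk x ω (t + 1)) ∂SRW.P G =
      ∫⁻ ω, op G (h (SRW.walk x ω t)) (SRW.walk x ω t) ∂SRW.P G := by
  have := fun v => isProbabilityMeasure_uniformOn (hf v) (hn v)
  have : Nonempty (V → V) := ⟨id⟩
  refine (MC.indep_past (Measure.infinitePi fun v => uniformOn (G.neighborSet v)) t
    (SRW.walk x · t) (SRW.walk_meas x t) (SRW.walk_congr x t) (fun z => h z.1 (z.2 z.1))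
    (measurable_from_prod_countable_right fun v =>
      (measurable_from_top (f := h v)).comp (measurable_pi_apply v))).trans
    (lintegral_congr fun ω => ?_)
  rw [← op_eq, ← Measure.infinitePi_map_eval (fun v => uniformOn (G.neighborSet v)),
    lintegral_map measurable_from_top (measurable_pi_apply _)]

lemma iter (t : ℕ) : ∀ f : V → ℝ≥0∞, ∫⁻ ω, f (SRW.walk x ω t) ∂SRW.P G = (op G)^[t] f x := by
  have := fun v => isProbabilityMeasure_uniformOn (hf v) (hn v)
  induction t with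
  | zero => simp [SRW.walk]
  | succ t ih => exact fun f => (step G hf hn x (fun _ => f) t).trans (ih _)

lemma adj_ae : ∀ᵐ ω ∂SRW.P G, ∀ t, G.Adj (SRW.walk x ω t) (SRW.walk x ω (t + 1)) := by
  refine ae_all_iff.2 fun t => ?_
  have := step G hf hn x (fun v => (G.neighborSet v)ᶜ.indicator 1) t
  simp only [op, nb, Set.indicator_indicator, Set.inter_compl_self, Set.indicator_empty, tsum_zero,
    mul_zero, lintegral_zero] at this
  exact ((lintegral_eq_zero_iff ((Measurable.of_discrete (f := fun p : V × V =>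
    (G.neighborSet p.1)ᶜ.indicator (1 : V → ℝ≥0∞) p.2)).comp
    ((SRW.walk_meas x t).prodMk (SRW.walk_meas x (t + 1))))).1 this).mono fun ω l => by
      simpa using l

end

variable {Γ Ω : Type} [Group Γ] [Countable Γ] [MeasurableSpace Ω] {μ : Measure Ω} {θ : Γ → Ω → Ω}
  (hθ : ∀ y, MeasurePreserving (θ y) μ μ)
include hθ

lemma mtp (F : Ω → Γ → Γ → ℝ≥0∞) (hm : ∀ x y, Measurable (F · x y))
    (hF : ∀ u y a b, F (θ y u) a b = F u (a * y) (b * y)) :
    ∫⁻ u, ∑' y, F u 1 y ∂μ = ∫⁻ u, ∑' y, F u y 1 ∂μ := by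
  rw [lintegral_tsum fun y => (hm _ _).aemeasurable, lintegral_tsum fun y => (hm _ _).aemeasurable,
    ← (Equiv.inv Γ).tsum_eq]
  refine tsum_congr fun y => ?_
  rw [← (hθ y).lintegral_comp (hm _ _)]
  simp [hF]

variable {G : Ω → SimpleGraph Γ} (mG : Measurable G)
  (hG : ∀ u y a b, (G (θ y u)).Adj a b ↔ (G u).Adj (a * y) (b * y))
include mG

omit hθ [Group Γ] in
lemma nb_meas {f : Ω → Γ → ℝ≥0∞} (hf : ∀ x, Measurable (f · x)) (x : Γ) :
    Measurable fun u => nb (G u) x (f u) :=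
  .tsum fun y => (hf y).indicator (s := {u | (G u).Adj x y})
    (measurableSet_setOfPred.2 (measurable_iff_adj.1 mG x y))

include hG

omit hθ mG [Countable Γ] [MeasurableSpace Ω] in
lemma nb_eqv {f g : Γ → ℝ≥0∞} {y : Γ} (h : ∀ a, f a = g (a * y)) (u : Ω) (a : Γ) :
    nb (G (θ y u)) a f = nb (G u) (a * y) g := by
  classical
  rw [nb, nb, ← (Equiv.mulRight y).tsum_eq (Set.indicator _ g)]
  exact tsum_congr fun b => by simp [Set.indicator, hG, h]

lemma stat (t : ℕ) : ∀ f : Ω → Γ → ℝ≥0∞, (∀ x, Measurable (f · x)) →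
    (∀ u y a, f (θ y u) a = f u (a * y)) → (∀ x, Measurable fun u => (op (G u))^[t] (f u) x) ∧
    ∫⁻ u, nb (G u) 1 1 * (op (G u))^[t] (f u) 1 ∂μ ≤ ∫⁻ u, nb (G u) 1 1 * f u 1 ∂μ := by
  classical
  induction t with
  | zero => exact fun f h _ => ⟨h, le_rfl⟩
  | succ t ih =>
    intro f h1 h2
    obtain ⟨k1, k2⟩ := ih (fun u => op (G u) (f u))
      (fun x => (nb_meas mG (fun _ => measurable_const) x).inv.mul (nb_meas mG h1 x))
      fun u y a => by
        rw [op, op, nb_eqv hG (f := 1) (g := 1) (fun _ => rfl), nb_eqv hG (h2 u y)]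
    refine ⟨k1, k2.trans ((lintegral_mono fun u => nb_op _ _ _).trans_eq
      ((mtp hθ (fun u a b => ((G u).neighborSet a).indicator (f u) b) (fun x y =>
        (h1 y).indicator (s := {u | (G u).Adj x y})
          (measurableSet_setOfPred.2 (measurable_iff_adj.1 mG x y)))
        fun u y a b => by simp [Set.indicator, hG, h2]).trans (lintegral_congr fun u => ?_)))⟩
    rw [nb, ← ENNReal.tsum_mul_right]
    exact tsum_congr fun y => by simp [Set.indicator, adj_comm]

omit hθ mG hG [Group Γ] [Countable Γ] [MeasurableSpace Ω] in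
lemma blocks {d : ℕ → ℕ → ℕ∞} (tri : ∀ a b c, d a c ≤ d a b + d b c) {b : ℕ → ℕ} {m L : ℕ}
    (h : ∀ s l, l ≤ m → d s (s + l) ≤ L + m * ∑ t ∈ Finset.range l, b (s + t)) (q : ℕ) :
    ∀ n, n ≤ (q + 1) * m → d 0 n ≤ (q + 1) * L + m * ∑ t ∈ Finset.range n, b t := by
  induction q with
  | zero => intro n k; simpa using h 0 n (by omega)
  | succ q ih =>
    intro n k
    by_cases l : n ≤ m
    · refine (le_of_eq_of_le (by simp) (h 0 n l)).trans ?_
      simp only [zero_add]
      gcongr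
      exact le_mul_of_one_le_left' le_add_self
    obtain ⟨s, rfl⟩ := Nat.exists_eq_add_of_le' (not_le.1 l).le
    refine (tri 0 s _).trans ((add_le_add (ih s (by nlinarith)) (h s m le_rfl)).trans_eq ?_)
    rw [Finset.sum_range_add]
    push_cast
    ring

omit hθ mG hG [Group Γ] [Countable Γ] [MeasurableSpace Ω] in
lemma harm (k : ℕ) : ∑ t ∈ Finset.range (2 ^ k), ((t + 1 : ℕ) : ℝ≥0∞)⁻¹ ≤ (k + 1 : ℕ) := by
  induction k with
  | zero => simp
  | succ k ih =>
    rw [pow_succ, mul_two, Finset.sum_range_add, Nat.cast_succ (k + 1)]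
    gcongr
    refine (Finset.sum_le_card_nsmul _ _ ((2 ^ k : ℕ) : ℝ≥0∞)⁻¹ fun t _ => ?_).trans ?_
    · gcongr; omega
    · simpa using ENNReal.mul_inv_le_one _

end Pool.Agent.H.MP_d2d64b_pr
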