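import Mathlib
import Pool.Agent.Lib.helper3.Padic
import Pool.Agent.H.MP_d2d64b_pr.A

open SimpleGraph MeasureTheory ProbabilityTheory Filter Pool.Agent.Lib.helper3 FreeGroup Topology
open scoped ENNReal

namespace Pool.Agent.H.MP_d2d64b_pr

abbrev V : Type := FreeGroup Bool × Multiplicative ℤ

def z (x : V) : ℤ := x.2.toAdd

def Near (k : ℕ) (r : ℤ) (x y : V) : Prop := norm (y.1 * x.1⁻¹) ≤ k ∧ |z y - z x| ≤ r

def Rel (α β k : ℕ) (u : ℤ_[2]) (x y : V) : Prop :=
  Padic.res α (u + (z x : ℤ_[2])) = 0 ∧ Padic.res β (u + (z y : ℤ_[2])) = 0 ∧ Near k (2 * 2 ^ β) x y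

noncomputable def th (y : V) (u : ℤ_[2]) : ℤ_[2] := u + (z y : ℤ_[2])

lemma z_mul (x y : V) : z (x * y) = z x + z y := rfl

lemma near_mul {k r} {a b : V} (y : V) : Near k r (a * y) (b * y) ↔ Near k r a b := by
  simp [Near, z_mul, mul_assoc]

lemma rel_mul {α β k u} {a b y : V} : Rel α β k (th y u) a b ↔ Rel α β k u (a * y) (b * y) := by
  simp [Rel, near_mul, th, z_mul, add_assoc, add_comm (z y : ℤ_[2])]

lemma Near.symm {k r} {x y : V} (h : Near k r x y) : Near k r y x :=
  ⟨by rw [← norm_inv_eq]; simpa using h.1, abs_sub_comm (z y) _ ▸ h.2⟩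

lemma Near.mono {k r k' r'} {x y : V} (h : Near k r x y) (a : k ≤ k') (b : r ≤ r') :
    Near k' r' x y := ⟨h.1.trans a, h.2.trans b⟩

lemma Near.add {k r k' r'} {x y w : V} (h : Near k r x y) (l : Near k' r' y w) :
    Near (k + k') (r + r') x w :=
  ⟨by have := norm_mul_le (w.1 * y.1⁻¹) (y.1 * x.1⁻¹)
      simp only [mul_assoc, inv_mul_cancel_left] at this
      linarith [h.1, l.1],
    by linarith [abs_sub_le (z w) (z y) (z x), h.2, l.2]⟩

lemma ball_fin (k : ℕ) : {g : FreeGroup Bool | norm g ≤ k}.Finite :=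
  (List.finite_length_le (Bool × Bool) k).preimage toWord_injective.injOn

noncomputable def Bl (k : ℕ) : ℕ := (ball_fin k).toFinset.card

lemma near_fin (k : ℕ) (r : ℤ) : {y | Near k r 1 y}.Finite :=
  ((ball_fin k).prod ((Set.finite_Icc (-r) r).preimage Multiplicative.toAdd.injective.injOn)).subset
    fun y h => ⟨by simpa using h.1, by simpa [z, abs_le] using h.2⟩

lemma lev_meas (α : ℕ) (n : ℤ) : Measurable fun u : ℤ_[2] => Padic.res α (u + (n : ℤ_[2])) = 0 :=
  measurableSet_setOfPred.1 ((Padic.res_meas α).comp (measurable_add_const _)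
    (measurableSet_singleton 0))

lemma rel_meas (α β k : ℕ) (x y : V) : Measurable (Rel α β k · x y) :=
  (lev_meas _ _).and ((lev_meas _ _).and measurable_const)

lemma th_mp (y : V) : MeasurePreserving (th y) (Padic.H 2) (Padic.H 2) :=
  measurePreserving_add_right _ _

lemma rel_cnt {α β : ℕ} (h : α ≤ β) (k : ℕ) :
    ∫⁻ u, ∑' y, {u | Rel α β k u 1 y}.indicator 1 u ∂Padic.H 2 ≤ 5 * Bl k / 2 ^ α := by
  classical
  obtain ⟨δ, rfl⟩ := Nat.exists_eq_add_of_le h
  let S : Finset V := (ball_fin k).toFinset ×ˢ (Finset.Icc (-(2 * 2 ^ δ) : ℤ) (2 * 2 ^ δ)).image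
    fun t => Multiplicative.ofAdd (2 ^ α * t)
  have m := fun y => measurableSet_setOfPred.2 (rel_meas α (α + δ) k 1 y)
  rw [lintegral_tsum fun y => (measurable_one.indicator (m y)).aemeasurable]
  simp only [lintegral_indicator_one (m _)]
  rw [tsum_eq_sum (s := S) fun y l => ?_]
  · refine (Finset.sum_le_card_nsmul _ _ (2 ^ (α + δ))⁻¹ fun y _ => ?_).trans ?_
    · refine (measure_mono (t := th y ⁻¹' {u | Padic.res (α + δ) u = 0}) fun u l => l.2.1).trans_eq ?_
      exact ((th_mp y).measure_preimage (Padic.res_meas _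
        (measurableSet_singleton 0)).nullMeasurableSet).trans (Padic.H_res _ le_rfl (by positivity))
    · have : S.card ≤ 5 * Bl k * 2 ^ δ := by
        rw [Finset.card_product, mul_comm 5, mul_assoc]
        refine Nat.mul_le_mul_left _ (Finset.card_image_le.trans ?_)
        rw [Int.card_Icc, Int.toNat_le]
        push_cast
        linarith [one_le_pow₀ (one_le_two (α := ℤ)) (n := δ)]
      rw [nsmul_eq_mul, div_eq_mul_inv]
      refine (mul_le_mul_left (Nat.cast_le.2 this) _).trans_eq ?_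
      push_cast
      rw [pow_add, ENNReal.mul_inv (by simp) (by simp), mul_comm (_ ^ α)⁻¹, ← mul_assoc,
        mul_assoc _ (2 ^ δ), ENNReal.mul_inv_cancel (by simp) (by simp), mul_one]
  · rw [show {u | Rel α (α + δ) k u 1 y} = ∅ from Set.eq_empty_of_forall_notMem fun u c => l ?_,
      measure_empty]
    obtain ⟨c1, c2, c3, c4⟩ := c
    rw [Padic.res_eq_zero] at c1 c2
    obtain ⟨t, ht⟩ : (2 ^ α : ℤ) ∣ z y := by
      have := dvd_sub ((pow_dvd_pow _ h).trans c2) c1
      simp only [z, Prod.snd_one, toAdd_one, Int.cast_zero, add_zero, add_sub_cancel_left] at this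
      exact_mod_cast (PadicInt.pow_p_dvd_int_iff α _).1 this
    refine Finset.mem_product.2 ⟨by simpa using c3, Finset.mem_image.2 ⟨t, ?_, by rw [← ht]; rfl⟩⟩
    rw [Finset.mem_Icc, ← abs_le]
    rw [ht, show z 1 = 0 from rfl, sub_zero, abs_mul, abs_of_pos (by positivity), pow_add,
      mul_left_comm] at c4
    exact le_of_mul_le_mul_left c4 (by positivity)

lemma up (α : ℕ) (u : ℤ_[2]) (x : V) :
    ∃ y : V, Padic.res α (u + (z y : ℤ_[2])) = 0 ∧ Near 0 (2 ^ α) x y := by
  refine ⟨(x.1, .ofAdd (z x - Padic.res α (u + (z x : ℤ_[2])))), ?_, by simp, ?_⟩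
  · have := Padic.res_add α (u + (z x : ℤ_[2])) (-Padic.res α (u + (z x : ℤ_[2])))
    simpa [z, add_assoc, sub_eq_add_neg] using this
  · have := Padic.res_lt α (u + (z x : ℤ_[2]))
    simpa [z, abs_of_nonneg (Padic.res_nonneg _ _)] using this.le

variable (a κ : ℕ → ℕ)

def Gr (u : ℤ_[2]) : SimpleGraph V :=
  fromRel fun x y => Near 1 1 x y ∨ ∃ i, Rel (a i) (a (i + 1)) (κ i) u x y

lemma gr_mul (u : ℤ_[2]) (y b c : V) : (Gr a κ (th y u)).Adj b c ↔ (Gr a κ u).Adj (b * y) (c * y) := by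
  simp [Gr, near_mul, rel_mul]

lemma gr_meas : Measurable (Gr a κ) := measurable_iff_adj.2 fun _ _ => measurable_const.and
  ((measurable_const.or (.exists fun _ => rel_meas ..)).or
    (measurable_const.or (.exists fun _ => rel_meas ..)))

variable {a κ} {u : ℤ_[2]}

lemma ed_one {x y : V} (h : Near 1 1 x y ∨ ∃ i, Rel (a i) (a (i + 1)) (κ i) u x y) :
    (Gr a κ u).edist x y ≤ 1 := by
  by_cases e : x = y
  · simp [e]
  · exact (edist_eq_one_iff_adj.2 ((fromRel_adj ..).2 ⟨e, .inl h⟩)).le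

lemma line (k : ℕ) : ∀ x y : V, Near 0 k x y → (Gr a κ u).edist x y ≤ k := by
  induction k with
  | zero =>
    intro x y h
    have : x = y := Prod.ext (mul_inv_eq_one.1 (norm_eq_zero.1 (Nat.le_zero.1 h.1))).symm
      (Multiplicative.toAdd.injective (sub_eq_zero.1 (abs_nonpos_iff.1 h.2)).symm)
    simp [this]
  | succ k ih =>
    intro x y h
    obtain ⟨n, h1, h2⟩ : ∃ n : ℤ, |n - z x| ≤ k ∧ |z y - n| ≤ 1 := by
      have := h.2
      simp only [abs_le] at this ⊢
      exact ⟨max (z x - k) (min (z x + k) (z y)), by omega⟩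
    exact (SimpleGraph.edist_triangle (v := (x.1, .ofAdd n))).trans
      (add_le_add (ih x (x.1, .ofAdd n) ⟨by simp, h1⟩) (ed_one (x := (x.1, .ofAdd n))
        (.inl ⟨h.1.trans zero_le_one, h2⟩)))

lemma conn : (Gr a κ u).Connected := by
  have k : ∀ (g : FreeGroup Bool) (x : V), (Gr a κ u).Reachable x (g * x.1, x.2) := fun g => by
    have e : ∀ x y : V, Near 1 1 x y → (Gr a κ u).Reachable x y := fun x y h =>
      edist_ne_top_iff_reachable.1 ((ed_one (.inl h)).trans_lt (by simp)).ne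
    induction g using FreeGroup.induction_on with
    | C1 => simp
    | of b => exact fun x => e _ _ ⟨by simp, by simp [z]⟩
    | inv_of b _ => exact fun x => e _ _ ⟨by simp, by simp [z]⟩
    | mul g h i j => exact fun x => (j x).trans (by simpa [mul_assoc] using i (h * x.1, x.2))
  refine ⟨fun x y => (k (y.1 * x.1⁻¹) x).trans (edist_ne_top_iff_reachable.1
    ((line (z y - z x).natAbs _ _ ⟨by simp, by simp [z]⟩).trans_lt (by simp)).ne)⟩

lemma cheeger (S : Finset V) :
    (S.card : ℕ∞) ≤ {p : V × V | p.1 ∈ S ∧ p.2 ∉ S ∧ (Gr a κ u).Adj p.1 p.2}.encard := by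
  classical
  let w : V × Bool → Bool × Bool := fun p => (p.2, decide (p.1.1 ∉ startsWith (p.2, false)))
  let Φ : V × Bool → V := fun p => (mk [w p] * p.1.1, p.1.2)
  have h1 : ∀ p, (Φ p).1 ∈ startsWith (w p) := fun p => startsWith_mk_mul _ fun l => by
    by_cases c : p.1.1 ∈ startsWith (p.2, false)
    · exact (startsWith.disjoint_iff_ne.2 (by simp [w, c])).notMem_of_mem_left c l
    · simp [w, c] at l
  have h2 : Function.Injective Φ := fun p q e => by
    have : w p = w q := by_contra fun l =>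
      (startsWith.disjoint_iff_ne.2 l).notMem_of_mem_left (h1 p) (e ▸ h1 q)
    simp only [Φ, this, Prod.mk.injEq, mul_right_inj] at e
    exact Prod.ext (Prod.ext e.1 e.2) (congrArg Prod.fst this)
  have h3 := Finset.le_card_sdiff S ((S ×ˢ Finset.univ).image Φ)
  rw [Finset.card_image_of_injective _ h2, Finset.card_product, Finset.card_univ, Fintype.card_bool,
    show S.card * 2 - S.card = S.card by omega] at h3
  refine (Nat.cast_le.2 h3).trans (le_trans ?_ (Set.encard_image_le Prod.snd _))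
  rw [← Set.encard_coe_eq_coe_finsetCard]
  refine Set.encard_le_encard fun y l => ?_
  simp only [Finset.coe_sdiff, Finset.coe_image, Set.mem_sdiff] at l
  obtain ⟨⟨p, k, rfl⟩, l⟩ := l
  have k := (Finset.mem_product.1 k).1
  exact ⟨(p.1, Φ p), ⟨k, l, fun e : p.1 = Φ p => l (e ▸ k), .inl (.inl ⟨by simpa [Φ] using norm_mk_le (L₁ := [w p]),
    by simp [Φ, z]⟩)⟩, rfl⟩

end Pool.Agent.H.MP_d2d64b_pr
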