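import Mathlib
import Pool.Agent.H.MP_d2d64b_pr.B

open SimpleGraph MeasureTheory ProbabilityTheory Filter Pool.Agent.Lib.helper3 FreeGroup Topology
open scoped ENNReal

namespace Pool.Agent.H.MP_d2d64b_pr

attribute [local instance] ms in
lemma meas2 {W : Type} [Countable W] (h : W → W → ℝ≥0∞) (x : W) (t : ℕ) :
    Measurable fun ω => h (SRW.walk x ω t) (SRW.walk x ω (t + 1)) :=
  (Measurable.of_discrete (f := fun p : W × W => h p.1 p.2)).comp
    ((SRW.walk_meas x t).prodMk (SRW.walk_meas x (t + 1)))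

structure Par (a κ : ℕ → ℕ) : Prop where
  k0 : 1 ≤ κ 0
  k1 : ∀ j, 2 ^ (a j + j + 3) * κ j ≤ κ (j + 1)
  a1 : ∀ j, 2 * a j + j + 5 ≤ a (j + 1)
  b1 : ∀ j, 2 ^ (a j + j + 3) * (a (j + 1) + j + 5) * Bl (κ (j + 1)) * 2 ^ j ≤ 2 ^ a (j + 1)

lemma par_ex : ∃ a κ, Par a κ := by
  let C : ℕ → ℕ × ℕ → ℕ := fun j p => 2 ^ (p.1 + j + 3) * Bl (2 ^ (p.1 + j + 3) * p.2) * 2 ^ j
  let s : ℕ → ℕ × ℕ := Nat.rec (0, 1) fun j p =>
    (2 * (C j p * (j + 7) + p.1 + j + 3), 2 ^ (p.1 + j + 3) * p.2)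
  refine ⟨fun j => (s j).1, fun j => (s j).2, le_rfl, fun j => le_rfl, fun j => ?_, fun j => ?_⟩
  · show _ ≤ 2 * (_ + (s j).1 + _ + _)
    omega
  · obtain ⟨K, e, h, l⟩ : ∃ K, (s (j + 1)).1 = 2 * K ∧ C j (s j) * (j + 7) ≤ K ∧ 1 ≤ K :=
      ⟨C j (s j) * (j + 7) + (s j).1 + j + 3, rfl, by omega, by omega⟩
    have := K.lt_two_pow_self
    calc _ = C j (s j) * ((s (j + 1)).1 + j + 5) := by simp only [C, s]; ring
      _ ≤ C j (s j) * ((j + 7) * K) := by rw [e]; gcongr; nlinarith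
      _ ≤ K * K := by rw [← mul_assoc]; gcongr
      _ ≤ _ := by rw [e, two_mul, pow_add]; gcongr

variable {a κ : ℕ → ℕ} (hp : Par a κ) {u : ℤ_[2]}
include hp

lemma Par.ma : Monotone a := monotone_nat_of_le_succ fun j => by linarith [hp.a1 j]

lemma Par.mk' : Monotone κ := monotone_nat_of_le_succ fun j =>
  (Nat.le_mul_of_pos_left _ (by positivity)).trans (hp.k1 j)

lemma short (j : ℕ) {x y : V}
    (h : Near (2 ^ (a j + j + 3) * κ j) (2 ^ (a j + j + 3) * (2 * 2 ^ a (j + 1))) x y) :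
    (Gr a κ u).edist x y ≤ (2 * 2 ^ a j + 4 : ℕ) := by
  obtain ⟨x1, a1, b1⟩ := up (a j) u x
  obtain ⟨x2, a2, b2⟩ := up (a (j + 1)) u x1
  obtain ⟨w, a3, b3⟩ := up (a (j + 2)) u x2
  obtain ⟨y1, c1, d1⟩ := up (a j) u y
  obtain ⟨y2, c2, d2⟩ := up (a (j + 1)) u y1
  have e : ∀ n : ℕ, (2 : ℤ) ^ n ≤ 2 * 2 ^ n := fun n => by linarith [pow_pos (two_pos (α := ℤ)) n]
  have e1 := line (a := a) (κ := κ) (u := u) (2 ^ a j) _ _ (by exact_mod_cast b1)
  have e2 := ed_one (a := a) (κ := κ) (.inr ⟨j, a1, a2, b2.mono zero_le (e _)⟩)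
  have e3 := ed_one (a := a) (κ := κ) (.inr ⟨j + 1, a2, a3, b3.mono zero_le (e _)⟩)
  have f1 := line (a := a) (κ := κ) (u := u) (2 ^ a j) _ _ (by exact_mod_cast d1)
  have f2 := ed_one (a := a) (κ := κ) (.inr ⟨j, c1, c2, d2.mono zero_le (e _)⟩)
  have f3 := ed_one (a := a) (κ := κ) (.inr ⟨j + 1, c2, a3, (((((d2.symm.add d1.symm).add h.symm).add b1).add b2).add
    b3).mono (by simpa using hp.k1 j) (by
      have g1 : (2 : ℤ) ^ a j ≤ 2 ^ a (j + 1) := pow_le_pow_right₀ one_le_two (hp.ma j.le_succ)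
      have g2 : (2 : ℤ) ^ (a j + j + 3 + a (j + 1) + 2) ≤ 2 ^ a (j + 2) :=
        pow_le_pow_right₀ one_le_two (by linarith [hp.ma j.le_succ, hp.a1 (j + 1)])
      have g3 : (2 : ℤ) ^ 1 ≤ 2 ^ (a j + j + 3) := pow_le_pow_right₀ one_le_two (by omega)
      rw [pow_add, pow_add] at g2
      nlinarith [pow_pos (two_pos (α := ℤ)) (a (j + 1))])⟩)
  rw [SimpleGraph.edist_comm] at f1 f2 f3
  have t := @SimpleGraph.edist_triangle _ (Gr a κ u)
  refine (t.trans (add_le_add (t.trans (add_le_add (t.trans (add_le_add e1 e2)) e3))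
    (t.trans (add_le_add (t.trans (add_le_add f3 f2)) f1)))).trans_eq ?_
  push_cast
  ring

omit hp in
open Classical in
variable (a κ) in
noncomputable def bad (j : ℕ) (x y : V) : ℕ := if Near (κ j) (2 * 2 ^ a (j + 1)) x y then 0 else 1

lemma path (j : ℕ) {X : ℕ → V} (hX : ∀ t, (Gr a κ u).Adj (X t) (X (t + 1))) (s l : ℕ)
    (h : l ≤ 2 ^ (a j + j + 3)) : (Gr a κ u).edist (X s) (X (s + l)) ≤ (2 * 2 ^ a j + 4 : ℕ) +
      (2 ^ (a j + j + 3) : ℕ) * ∑ t ∈ Finset.range l, bad a κ j (X (s + t)) (X (s + t + 1)) := by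
  rcases (∑ t ∈ Finset.range l, bad a κ j (X (s + t)) (X (s + t + 1))).eq_zero_or_pos with e | e
  · have : ∀ n ≤ l, Near (n * κ j) (n * (2 * 2 ^ a (j + 1))) (X s) (X (s + n)) := fun n => by
      induction n with
      | zero => simp [Near]
      | succ n ih =>
        intro k
        have := Finset.sum_eq_zero_iff.1 e n (Finset.mem_range.2 k)
        simp only [bad, ite_eq_left_iff, one_ne_zero, imp_false, not_not] at this
        exact ((ih (by omega)).add this).mono (by linarith) (by push_cast; linarith)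
    exact le_add_right (short hp j ((this l le_rfl).mono (by gcongr) (by gcongr; exact_mod_cast h)))
  · have : ∀ n : ℕ, (Gr a κ u).edist (X s) (X (s + n)) ≤ n := fun n => by
      induction n with
      | zero => simp
      | succ n ih =>
        exact SimpleGraph.edist_triangle.trans
          (add_le_add ih (edist_eq_one_iff_adj.2 (hX (s + n))).le)
    exact le_add_left ((this l).trans (by exact_mod_cast h.trans (Nat.le_mul_of_pos_right _ e)))

lemma W_le (j : ℕ) : (2 ^ (a j + j + 3) * (a (j + 1) + j + 5) : ℕ) *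
    ∫⁻ u, nb (Gr a κ u) 1 (bad a κ j 1 ·) ∂Padic.H 2 ≤ 20 * 2⁻¹ ^ j := by
  let F : ℕ → ℤ_[2] → V → V → ℝ≥0∞ := fun i u x y =>
    {u | Rel (a (i + 1)) (a (i + 2)) (κ (i + 1)) u x y}.indicator 1 u
  have m : ∀ i x y, Measurable (F i · x y) := fun i x y =>
    measurable_one.indicator (measurableSet_setOfPred.2 (rel_meas ..))
  have h1 : ∀ u y, ((Gr a κ u).neighborSet 1).indicator (fun y => (bad a κ j 1 y : ℝ≥0∞)) y ≤
      ∑' i, (F (j + i) u 1 y + F (j + i) u y 1) := fun u y => by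
    by_cases c : (Gr a κ u).Adj 1 y ∧ ¬ Near (κ j) (2 * 2 ^ a (j + 1)) 1 y
    swap
    · simp only [Set.indicator, mem_neighborSet, bad]
      split_ifs <;> simp_all
    have k : ∀ x y, (Near 1 1 x y ∨ ∃ i, Rel (a i) (a (i + 1)) (κ i) u x y) →
        ¬ Near (κ j) (2 * 2 ^ a (j + 1)) x y → ∃ i, F (j + i) u x y = 1 := by
      rintro x y (h | ⟨i, h⟩) l
      · exact (l (h.mono (hp.k0.trans (hp.mk' zero_le))
          (by linarith [pow_pos (two_pos (α := ℤ)) (a (j + 1))]))).elim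
      rcases le_or_gt i j with e | e
      · exact (l (h.2.2.mono (hp.mk' e) (by gcongr; exacts [one_le_two, hp.ma (by omega)]))).elim
      obtain ⟨n, rfl⟩ := Nat.exists_eq_add_of_lt e
      exact ⟨n, Set.indicator_of_mem (by exact h) _⟩
    refine (Set.indicator_le_self _ _ y).trans ?_
    simp only [bad, c.2, if_false, Nat.cast_one]
    rcases c.1.2 with h | h
    · exact (k _ _ h c.2).elim fun i e => (e.ge.trans le_self_add).trans (ENNReal.le_tsum i)
    · exact (k _ _ h fun l => c.2 l.symm).elim fun i e =>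
        (e.ge.trans le_add_self).trans (ENNReal.le_tsum i)
  refine (mul_le_mul_right (lintegral_mono fun u => (ENNReal.tsum_le_tsum (h1 u)).trans_eq
    ENNReal.tsum_comm) _).trans ?_
  rw [lintegral_tsum fun i => by exact (Measurable.tsum fun y => (m ..).add (m ..)).aemeasurable,
    ← ENNReal.tsum_mul_left]
  refine (ENNReal.tsum_le_tsum (g := fun i => 10 * 2⁻¹ ^ j * 2⁻¹ ^ i) fun i => ?_).trans_eq ?_
  · simp only [ENNReal.tsum_add]
    rw [lintegral_add_left (.tsum fun y => m ..), ← mtp th_mp (F _) (m _) fun u y b c => by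
      by_cases l : Rel (a (j + i + 1)) (a (j + i + 2)) (κ (j + i + 1)) u (b * y) (c * y) <;>
        simp [F, rel_mul, l], ← two_mul]
    refine (mul_le_mul_right (mul_le_mul_right (rel_cnt (hp.ma (Nat.le_succ _)) _) _) _).trans ?_
    rw [← mul_div_assoc, ← mul_div_assoc, mul_assoc 10, ← pow_add, ← ENNReal.inv_pow]
    refine ENNReal.div_le_of_le_mul ?_
    rw [mul_right_comm, ← div_eq_mul_inv, ENNReal.le_div_iff_mul_le (by simp) (by simp)]
    have := hp.b1 (j + i)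
    have g1 := hp.ma (j.le_add_right i)
    have g2 := hp.ma (show j + 1 ≤ j + i + 1 by omega)
    norm_cast
    calc _ = 10 * (2 ^ (a j + j + 3) * (a (j + 1) + j + 5) * Bl (κ (j + i + 1)) * 2 ^ (j + i)) := by ring
      _ ≤ 10 * (2 ^ (a (j + i) + (j + i) + 3) * (a (j + i + 1) + (j + i) + 5) * Bl (κ (j + i + 1)) *
        2 ^ (j + i)) := by gcongr <;> omega
      _ ≤ _ := by gcongr
  · rw [ENNReal.tsum_mul_left, ENNReal.tsum_geometric, ENNReal.one_sub_inv_two, inv_inv]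
    ring

lemma deg_fin : ∫⁻ u, nb (Gr a κ u) 1 1 ∂Padic.H 2 < ∞ := by
  have f := near_fin (κ 0) (2 * 2 ^ a 1)
  calc _ ≤ ∫⁻ u, nb (Gr a κ u) 1 (bad a κ 0 1 ·) + ∑' y, (f.toFinset : Set V).indicator 1 y ∂Padic.H 2 := by
        refine lintegral_mono fun u => ?_
        rw [nb, nb, ← ENNReal.tsum_add]
        refine ENNReal.tsum_le_tsum fun y => ?_
        simp only [Set.indicator, bad, Set.Finite.coe_toFinset, Set.mem_ofPred_eq, zero_add]
        split_ifs <;> simp_all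
    _ < ∞ := by
      rw [lintegral_add_right _ measurable_const, lintegral_const, measure_univ, mul_one,
        ← tsum_subtype, Finset.tsum_subtype']
      refine ENNReal.add_lt_top.2 ⟨?_, by simp⟩
      exact ((le_mul_of_one_le_left' (by exact_mod_cast Nat.succ_le_of_lt (by positivity))).trans
        (W_le hp 0)).trans_lt (by simp)

lemma loc_fin : ∀ᵐ u ∂Padic.H 2, ∀ v, ((Gr a κ u).neighborSet v).Finite :=
  ae_all_iff.2 fun v => ((th_mp v).quasiMeasurePreserving.ae (ae_lt_top (nb_meas (gr_meas a κ)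
    (f := fun _ => 1) (fun _ => measurable_const) 1) (deg_fin hp).ne)).mono fun u l => by
      rw [nb_eqv (gr_mul a κ) (f := 1) (g := 1) (fun _ => rfl), one_mul, nb_one] at l
      exact Set.encard_lt_top_iff.1 (by simpa using l)

lemma det {X : ℕ → V} (hX : ∀ t, (Gr a κ u).Adj (X t) (X (t + 1)))
    (h : ∑' j, ∑ t ∈ Finset.range (2 ^ (a (j + 1) + j + 4)), (2 ^ (a j + j + 3) : ℕ) *
      ((t + 1 : ℕ) : ℝ≥0∞)⁻¹ * bad a κ j (X t) (X (t + 1)) ≠ ∞) :
    Tendsto (fun n => ((Gr a κ u).dist (X 0) (X n) : ℝ) / n) atTop (𝓝 0) := by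
  have h1 := (ENNReal.Tendsto.const_mul (a := 2) (ENNReal.tendsto_pow_atTop_nhds_zero_of_lt_one
    (ENNReal.inv_lt_one.2 ENNReal.one_lt_two)) (by simp)).add (ENNReal.tendsto_atTop_zero_of_tsum_ne_top h)
  rw [mul_zero, add_zero, ENNReal.tendsto_atTop_zero] at h1
  suffices Tendsto (fun n : ℕ => ((Gr a κ u).dist (X 0) (X n) : ℝ≥0∞) / n) atTop (𝓝 0) by
    simpa [Function.comp_def] using (ENNReal.tendsto_toReal ENNReal.zero_ne_top).comp this
  refine ENNReal.tendsto_atTop_zero.2 fun ε hε => (h1 ε hε).elim fun J hJ =>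
    ⟨2 ^ (a J + J + 3), fun n hn => ?_⟩
  have ex : ∃ k, n < 2 ^ (a k + k + 3) :=
    ⟨n, n.lt_two_pow_self.trans_le (Nat.pow_le_pow_right two_pos (by omega))⟩
  obtain ⟨j, e, l⟩ : ∃ j, Nat.find ex = j + 1 ∧ J ≤ j := by
    have : J < Nat.find ex := (Nat.lt_find_iff ..).2 fun k l => not_lt.2
      ((Nat.pow_le_pow_right two_pos (by linarith [hp.ma l])).trans hn)
    exact ⟨Nat.find ex - 1, by omega, by omega⟩
  have l1 := e ▸ Nat.find_spec ex
  have l2 := not_lt.1 (Nat.find_min ex (m := j) (by omega))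
  refine le_trans (ENNReal.div_le_of_le_mul ?_) (hJ j l)
  have m0 : 0 < 2 ^ (a j + j + 3) := by positivity
  have k := blocks (d := fun s t => (Gr a κ u).edist (X s) (X t))
    (fun _ _ _ => SimpleGraph.edist_triangle) (b := fun t => bad a κ j (X t) (X (t + 1)))
    (path hp j hX) (n / 2 ^ (a j + j + 3)) n (Nat.lt_mul_div_succ n m0 |>.le.trans_eq (mul_comm ..))
  rw [← (conn.preconnected _ _).coe_dist_eq_edist] at k
  norm_cast at k
  refine ((Nat.cast_le (α := ℝ≥0∞)).2 k).trans ?_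
  rw [Nat.cast_add, add_mul (2 * _ : ℝ≥0∞)]
  refine add_le_add ?_ ?_
  · rw [← ENNReal.inv_pow, mul_right_comm, ← div_eq_mul_inv,
      ENNReal.le_div_iff_mul_le (by simp) (by simp)]
    norm_cast
    have g1 := Nat.div_mul_le_self n (2 ^ (a j + j + 3))
    have g2 := (Nat.one_le_div_iff m0).2 l2
    generalize n / 2 ^ (a j + j + 3) = q at *
    rw [pow_add, pow_add] at g1
    have g3 : 0 < 2 ^ a j := by positivity
    calc _ ≤ (2 * q) * (8 * 2 ^ a j) * 2 ^ j := by gcongr <;> omega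
      _ ≤ _ := by linarith
  · rw [Nat.cast_mul, Nat.cast_sum, Finset.mul_sum, Finset.sum_mul]
    refine (Finset.sum_le_sum fun t c => ?_).trans (Finset.sum_le_sum_of_subset
      (Finset.range_mono l1.le))
    rw [mul_right_comm _ _ (n : ℝ≥0∞), mul_assoc _ _ (n : ℝ≥0∞)]
    gcongr
    refine le_mul_of_one_le_right' ?_
    rw [← ENNReal.div_eq_inv_mul, ENNReal.le_div_iff_mul_le (by simp) (by simp), one_mul]
    exact_mod_cast Finset.mem_range.1 c

instance : MeasurableSpace V := ⊤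

lemma speed : ∀ᵐ u ∂Padic.H 2, ∀ᵐ ω ∂SRW.P (Gr a κ u),
    Tendsto (fun n => ((Gr a κ u).dist 1 (SRW.walk 1 ω n) : ℝ) / n) atTop (𝓝 0) := by
  let φ : ℕ → ℤ_[2] → V → ℝ≥0∞ := fun j u v => op (Gr a κ u) (bad a κ j v ·) v
  have hn : ∀ u v, ((Gr a κ u).neighborSet v).Nonempty := fun u v =>
    conn.preconnected.exists_adj_of_nontrivial v
  have s := fun j t => stat th_mp (gr_meas a κ) (gr_mul a κ) t (φ j)
    (fun x => (nb_meas (gr_meas a κ) (fun _ => measurable_const) x).inv.mul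
      (nb_meas (gr_meas a κ) (f := fun _ => (bad a κ j x ·)) (fun _ => measurable_const) x))
    fun u y b => by
      simp only [φ, op]
      rw [nb_eqv (gr_mul a κ) (f := 1) (g := 1) (fun _ => rfl), nb_eqv (gr_mul a κ)
        (g := (bad a κ j (b * y) ·)) fun c => by rw [bad, bad, near_mul]]
  have m := fun j => Finset.measurable_fun_sum (Finset.range (2 ^ (a (j + 1) + j + 4))) fun t _ =>
    ((s j t).1 1).const_mul ((2 ^ (a j + j + 3) : ℕ) * ((t + 1 : ℕ) : ℝ≥0∞)⁻¹)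
  refine ((loc_fin hp).and (ae_lt_top (.tsum (L := .unconditional ℕ) m) ?_)).mono
    fun u ⟨hf, h⟩ => ?_
  swap
  · have m' : ∀ j t, Measurable fun ω => (bad a κ j (SRW.walk 1 ω t) (SRW.walk 1 ω (t + 1)) : ℝ≥0∞) :=
      fun j t => meas2 (fun x y => bad a κ j x y) 1 t
    have m2 := fun j => Finset.measurable_fun_sum (Finset.range (2 ^ (a (j + 1) + j + 4))) fun t _ =>
      (m' j t).const_mul ((2 ^ (a j + j + 3) : ℕ) * ((t + 1 : ℕ) : ℝ≥0∞)⁻¹)
    refine ((adj_ae _ hf (hn u) 1).and (ae_lt_top (.tsum (L := .unconditional ℕ) m2) ?_)).mono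
      fun ω ⟨k, l⟩ => det hp (X := SRW.walk 1 ω) k l.ne
    rw [lintegral_tsum fun j => (m2 j).aemeasurable]
    refine (h.trans_eq' (tsum_congr fun j => ?_)).ne
    rw [lintegral_finsetSum _ fun t _ => (m' j t).const_mul _]
    refine Finset.sum_congr rfl fun t _ => ?_
    rw [lintegral_const_mul _ (m' j t), ← iter _ hf (hn u)]
    exact congrArg _ (step _ hf (hn u) 1 (fun x y => bad a κ j x y) t).symm
  rw [lintegral_tsum fun j => (m j).aemeasurable]
  refine ((ENNReal.tsum_le_tsum (g := fun j => 20 * 2⁻¹ ^ j) fun j => ?_).trans_lt ?_).ne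
  · rw [lintegral_finsetSum _ fun t _ => ((s j t).1 1).const_mul _]
    refine (Finset.sum_le_sum fun t _ => (lintegral_const_mul _ ((s j t).1 1)).trans_le
      (mul_le_mul_right ((lintegral_mono fun u => le_mul_of_one_le_left' ?_).trans
        ((s j t).2.trans (lintegral_mono fun u => nb_op ..))) _)).trans ?_
    · rw [nb_one]
      exact ENat.toENNReal_one.ge.trans
        (ENat.toENNReal_le.2 (Set.one_le_encard_iff_nonempty.2 (hn u 1)))
    rw [← Finset.sum_mul, ← Finset.mul_sum]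
    refine le_trans ?_ (W_le hp j)
    rw [Nat.cast_mul]
    gcongr
    exact harm _
  · rw [ENNReal.tsum_mul_left, ENNReal.tsum_geometric, ENNReal.one_sub_inv_two, inv_inv]
    finiteness

omit hp in
theorem main : ∃ (Ω : Type) (_ : MeasurableSpace Ω) (μ : Measure Ω) (G : Ω → SimpleGraph V),
    IsProbabilityMeasure μ ∧ Measurable G ∧
    (∀ᵐ u ∂μ, (G u).Connected ∧ ∀ v, ((G u).neighborSet v).Finite) ∧
    (∀ F : SimpleGraph V → V → V → ℝ≥0∞, (∀ x y, Measurable fun H => F H x y) →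
      (∀ (H H' : SimpleGraph V) (σ : H ≃g H') x y, F H' (σ x) (σ y) = F H x y) →
      ∫⁻ u, ∑' v, F (G u) 1 v ∂μ = ∫⁻ u, ∑' v, F (G u) v 1 ∂μ) ∧
    (∀ A : Set (SimpleGraph V), MeasurableSet A → (∀ H H', Nonempty (H ≃g H') → H ∈ A → H' ∈ A) →
      μ (G ⁻¹' A) = 0 ∨ μ (G ⁻¹' A) = 1) ∧
    ∫⁻ u, ((G u).neighborSet 1).encard ∂μ < ∞ ∧
    (∀ u (S : Finset V),
      (S.card : ℕ∞) ≤ {p : V × V | p.1 ∈ S ∧ p.2 ∉ S ∧ (G u).Adj p.1 p.2}.encard) ∧
    ∀ᵐ u ∂μ, ∀ᵐ ω ∂SRW.P (G u),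
      Tendsto (fun n => ((G u).dist 1 (SRW.walk 1 ω n) : ℝ) / n) atTop (𝓝 0) := by
  obtain ⟨a, κ, hp⟩ := par_ex
  let σ : ∀ u y, Gr a κ (th y u) ≃g Gr a κ u := fun u y =>
    ⟨Equiv.mulRight y, (gr_mul a κ u y _ _).symm⟩
  refine ⟨ℤ_[2], _, Padic.H 2, Gr a κ, inferInstance, gr_meas a κ,
    (loc_fin hp).mono fun u h => ⟨conn, h⟩, fun F h1 h2 => mtp th_mp (fun u => F (Gr a κ u))
      (fun x y => (h1 x y).comp (gr_meas a κ)) fun u y b c => (h2 _ _ (σ u y) b c).symm,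
    fun A h1 h2 => Padic.ergodic.toPreErgodic.prob_eq_zero_or_one (gr_meas a κ h1) ?_,
    by simpa only [nb_one] using deg_fin hp, fun u S => cheeger S, speed hp⟩
  ext u
  have e : 1 + u = th (1, .ofAdd 1) u := by simp [th, z, add_comm]
  simp only [Set.mem_preimage, e]
  exact ⟨h2 _ _ ⟨σ u _⟩, h2 _ _ ⟨(σ u _).symm⟩⟩

end Pool.Agent.H.MP_d2d64b_pr
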